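import Pool.Agent.KS6_83.PN.F

/-!
The comparison principle for `𝒜`-superharmonic and `𝒜`-subharmonic functions with an exceptional
set of boundary points of zero capacity relative to the domain.
-/

set_option autoImplicit false

open MeasureTheory Filter Topology Set
open Pool.Agent.Helper533.Polar.Stmt Pool.Agent.KS6_83.PN

namespace Pool.Agent.Results.MP_fb6cbc_an.PolarSets

variable {n : ℕ}

/-- Comparison principle off `E`, for real valued bounded functions (the question of the problem is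
the case `E = {x₀}`). -/
def BoundedComparison (𝒜 : Sp n → Sp n → Sp n) (p : ℝ) (w : Sp n → ℝ) (Ω E : Set (Sp n)) : Prop :=
  ∀ u v : Sp n → ℝ, IsSuperharmonic 𝒜 p w Ω u → IsSubharmonic 𝒜 p w Ω v →
    (∃ M : ℝ, ∀ x ∈ Ω, |u x| ≤ M) → (∃ M : ℝ, ∀ x ∈ Ω, |v x| ≤ M) →
    (∀ y ∈ frontier Ω \ E, limsup v (𝓝[Ω] y) ≤ liminf u (𝓝[Ω] y)) → ∀ x ∈ Ω, v x ≤ u x

/-- Comparison principle off `E`, for `u : Ω → (-∞, ∞]` and `v : Ω → [-∞, ∞)`, where only
`limsup v < ∞` and `liminf u > -∞` is required at the boundary points. -/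
def Comparison (𝒜 : Sp n → Sp n → Sp n) (p : ℝ) (w : Sp n → ℝ) (Ω E : Set (Sp n)) : Prop :=
  ∀ u v : Sp n → EReal, IsSuper 𝒜 p w Ω u → IsSub 𝒜 p w Ω v →
    (∀ y ∈ frontier Ω, limsup v (𝓝[Ω] y) < ⊤ ∧ ⊥ < liminf u (𝓝[Ω] y)) →
    (∀ y ∈ frontier Ω \ E, limsup v (𝓝[Ω] y) ≤ liminf u (𝓝[Ω] y)) → ∀ x ∈ Ω, v x ≤ u x

/-- A bounded `𝒜`-harmonic function is determined by its limits at the boundary points off `E`. -/
def Uniqueness (𝒜 : Sp n → Sp n → Sp n) (p : ℝ) (w : Sp n → ℝ) (Ω E : Set (Sp n)) : Prop :=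
  ∀ h k : Sp n → ℝ, IsHarmonic 𝒜 p w Ω h → IsHarmonic 𝒜 p w Ω k →
    (∃ M : ℝ, ∀ x ∈ Ω, |h x| ≤ M ∧ |k x| ≤ M) →
    (∀ y ∈ frontier Ω \ E, ∃ c : ℝ, Tendsto h (𝓝[Ω] y) (𝓝 c) ∧ Tendsto k (𝓝[Ω] y) (𝓝 c)) →
    ∀ x ∈ Ω, h x = k x

/-- The upper Perron solution: the infimum of the superharmonic functions that are bounded below
and have `liminf u ≥ f` at all boundary points. -/
noncomputable def upperPerron (𝒜 : Sp n → Sp n → Sp n) (p : ℝ) (w : Sp n → ℝ) (Ω : Set (Sp n))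
    (f : Sp n → EReal) (x : Sp n) : EReal :=
  sInf {t | ∃ u : Sp n → EReal, IsSuper 𝒜 p w Ω u ∧ (∃ m : ℝ, ∀ y ∈ Ω, (m : EReal) ≤ u y) ∧
    (∀ y ∈ frontier Ω, f y ≤ liminf u (𝓝[Ω] y)) ∧ t = u x}

/-- The lower Perron solution. -/
noncomputable def lowerPerron (𝒜 : Sp n → Sp n → Sp n) (p : ℝ) (w : Sp n → ℝ) (Ω : Set (Sp n))
    (f : Sp n → EReal) (x : Sp n) : EReal :=
  sSup {t | ∃ v : Sp n → EReal, IsSub 𝒜 p w Ω v ∧ (∃ M : ℝ, ∀ y ∈ Ω, v y ≤ (M : EReal)) ∧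
    (∀ y ∈ frontier Ω, limsup v (𝓝[Ω] y) ≤ f y) ∧ t = v x}

/-- `f` is resolutive: its upper and lower Perron solutions are equal. -/
def Resolutive (𝒜 : Sp n → Sp n → Sp n) (p : ℝ) (w : Sp n → ℝ) (Ω : Set (Sp n))
    (f : Sp n → EReal) : Prop :=
  ∀ x ∈ Ω, lowerPerron 𝒜 p w Ω f x = upperPerron 𝒜 p w Ω f x

/-- Perron solutions do not see `E`: `f ≤ g` off `E` implies that the lower solution of `f` is at
most the upper solution of `g`, and resolutive functions which agree off `E` have the same Perron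
solution. -/
def PerronInvariance (𝒜 : Sp n → Sp n → Sp n) (p : ℝ) (w : Sp n → ℝ) (Ω E : Set (Sp n)) : Prop :=
  ∀ f g : Sp n → EReal,
    ((∀ y ∈ frontier Ω \ E, f y ≤ g y) →
      ∀ x ∈ Ω, lowerPerron 𝒜 p w Ω f x ≤ upperPerron 𝒜 p w Ω g x) ∧
    ((∀ y ∈ frontier Ω \ E, f y = g y) → Resolutive 𝒜 p w Ω f → Resolutive 𝒜 p w Ω g →
      ∀ x ∈ Ω, upperPerron 𝒜 p w Ω f x = upperPerron 𝒜 p w Ω g x)

theorem perron_le {𝒜 : Sp n → Sp n → Sp n} {p : ℝ} {w : Sp n → ℝ} {Ω E : Set (Sp n)}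
    (h : Comparison 𝒜 p w Ω E) {f g : Sp n → EReal} (hfg : ∀ y ∈ frontier Ω \ E, f y ≤ g y) :
    ∀ x ∈ Ω, lowerPerron 𝒜 p w Ω f x ≤ upperPerron 𝒜 p w Ω g x := by
  intro x hx
  refine sSup_le ?_
  rintro _ ⟨v, hv, ⟨M, hM⟩, hvf, rfl⟩
  refine le_sInf ?_
  rintro _ ⟨u, hu, ⟨m, hm⟩, hug, rfl⟩
  refine h u v hu hv (fun y hy => ⟨?_, ?_⟩) (fun y hy => ?_) x hx
  · refine lt_of_le_of_lt (limsup_le_of_le (h := ?_)) (EReal.coe_lt_top M)
    filter_upwards [self_mem_nhdsWithin] with z hz using hM z hz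
  · refine lt_of_lt_of_le (EReal.bot_lt_coe m) (le_liminf_of_le (h := ?_))
    filter_upwards [self_mem_nhdsWithin] with z hz using hm z hz
  · exact (hvf y hy.1).trans ((hfg y hy).trans (hug y hy.1))

/-- **Comparison principle with an exceptional boundary set of zero relative capacity.** Let
`n ≥ 2`, `1 < p < ∞`, let `w` be `p`-admissible, `dμ = w dx`, let `𝒜` satisfy the structure
conditions and let `Ω` be bounded and open. Every set of zero `(p, μ)`-capacity has zero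
`(p, μ)`-capacity relative to `Ω`, and if `E` has zero `(p, μ)`-capacity relative to `Ω`, then the
comparison principle holds if the boundary inequality is assumed only off `E`: for bounded functions
(this contains the question of the problem, `E = {x₀}`), and for functions with values in
`(-∞, ∞]` and `[-∞, ∞)` that are bounded only on the side that matters; bounded `𝒜`-harmonic
functions are determined by their limits off `E`; and Perron solutions do not see `E`. -/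
theorem result :
    ∀ (n : ℕ), 2 ≤ n → ∀ (p : ℝ), 1 < p → ∀ (w : Sp n → ℝ), IsAdmissible p w →
    ∀ (α β : ℝ) (𝒜 : Sp n → Sp n → Sp n), IsOperator p α β w 𝒜 →
    ∀ (Ω : Set (Sp n)), IsOpen Ω → Bornology.IsBounded Ω →
    (∀ E : Set (Sp n), cap p (wm w) E = 0 → relCap p (wm w) Ω E = 0) ∧
    ∀ E : Set (Sp n), relCap p (wm w) Ω E = 0 →
      BoundedComparison 𝒜 p w Ω E ∧ Comparison 𝒜 p w Ω E ∧ Uniqueness 𝒜 p w Ω E ∧
        PerronInvariance 𝒜 p w Ω E := by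
  intro n hn p hp w hw α β 𝒜 hA Ω hΩ hΩb
  refine ⟨fun E hE => le_antisymm ((relCap_le_cap E).trans hE.le) zero_le, ?_⟩
  intro E hE
  have hC : Comparison 𝒜 p w Ω E := by
    intro u v hu hv hb hbd
    exact compare hn hp hw hA hΩ hΩb hE hu hv (fun y hy => (hb y hy).1) (fun y hy => (hb y hy).2) hbd
  have hB : BoundedComparison 𝒜 p w Ω E := by
    intro u v hu hv hub hvb hbd
    obtain ⟨Cd0, -, -, -, -, hfin⟩ := Pool.Agent.Helper533.Polar.wm_basic hp hw
    have := hfin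
    obtain ⟨Cd, θ, Cs, lam, Cp, hadm⟩ := Pool.Agent.Helper533.Polar.adm_of_isAdmissible hp hw
    obtain ⟨M1, hM1⟩ := hub
    obtain ⟨M2, hM2⟩ := hvb
    have hα : 0 < α := hA.alpha_pos
    have hβ : 0 < β := lt_of_lt_of_le hα hA.alpha_le_beta
    set m : ℝ := max (max M1 M2) 0 with hm
    have hmM1 : M1 ≤ m := (le_max_left M1 M2).trans (le_max_left _ _)
    have hmM2 : M2 ≤ m := (le_max_right M1 M2).trans (le_max_left _ _)
    have hm0 : 0 ≤ m := le_max_right _ _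
    have hmu : ∀ x ∈ Ω, |u x| ≤ m := fun x hx => (hM1 x hx).trans hmM1
    have hmv : ∀ x ∈ Ω, |v x| ≤ m := fun x hx => (hM2 x hx).trans hmM2
    have hne : Ωᶜ.Nonempty := by
      have : Nonempty (Fin n) := ⟨⟨0, by omega⟩⟩
      have : Nontrivial (Sp n) := inferInstance
      by_contra hcon
      rw [not_nonempty_iff_eq_empty, compl_empty_iff] at hcon
      rw [hcon] at hΩb
      exact NormedSpace.unbounded_univ ℝ (Sp n) hΩb
    refine main_internal' (m := m) hp hα hβ (Pool.Agent.Helper533.Polar.op_of_isOperator hp hw hA) hadm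
      hΩ hΩb hne hm0 hmu hmv hu.lsc hv.usc (Pool.Agent.Helper533.Polar.cmpSuper_of hp hw hu)
      (Pool.Agent.Helper533.Polar.cmpSuper_neg_of hp hw hA hv) (E := E) ?_ (cut_of_relCap hp hΩ hE)
    intro y hy hyx e he
    have h0 := hbd y ⟨hy, hyx⟩
    have hvbd : IsBoundedUnder (· ≤ ·) (𝓝[Ω] y) v := by
      refine ⟨m, ?_⟩
      rw [eventually_map]
      filter_upwards [self_mem_nhdsWithin] with x hx using (abs_le.1 (hmv x hx)).2
    have hubd : IsBoundedUnder (· ≥ ·) (𝓝[Ω] y) u := by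
      refine ⟨-m, ?_⟩
      rw [eventually_map]
      filter_upwards [self_mem_nhdsWithin] with x hx using (abs_le.1 (hmu x hx)).1
    have h1 : ∀ᶠ x in 𝓝[Ω] y, v x < limsup v (𝓝[Ω] y) + e / 2 :=
      eventually_lt_of_limsup_lt (by linarith) hvbd
    have h2 : ∀ᶠ x in 𝓝[Ω] y, liminf u (𝓝[Ω] y) - e / 2 < u x :=
      eventually_lt_of_lt_liminf (by linarith) hubd
    have h3 : ∀ᶠ x in 𝓝[Ω] y, v x < u x + e := by
      filter_upwards [h1, h2] with x hx1 hx2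
      linarith
    rw [Metric.nhdsWithin_basis_ball.eventually_iff] at h3
    obtain ⟨r, hr, h4⟩ := h3
    exact ⟨r, hr, fun x hxΩ hxb => h4 ⟨hxb, hxΩ⟩⟩
  refine ⟨hB, hC, ?_, ?_⟩
  · -- uniqueness
    have hle : ∀ h k : Sp n → ℝ, IsHarmonic 𝒜 p w Ω h → IsHarmonic 𝒜 p w Ω k →
        (∃ M : ℝ, ∀ x ∈ Ω, |h x| ≤ M ∧ |k x| ≤ M) →
        (∀ y ∈ frontier Ω \ E, ∃ c : ℝ, Tendsto h (𝓝[Ω] y) (𝓝 c) ∧ Tendsto k (𝓝[Ω] y) (𝓝 c)) →
        ∀ x ∈ Ω, h x ≤ k x := by
      rintro h k hh hk ⟨M, hM⟩ hlim x hx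
      have h1 := hC (fun x => (k x : EReal)) (fun x => (h x : EReal)) (super_of_harm hp hw hA hk)
        (sub_of_harm hp hw hA hh) (fun y hy => ⟨?_, ?_⟩) (fun y hy => ?_) x hx
      · exact EReal.coe_le_coe_iff.1 h1
      · refine lt_of_le_of_lt (limsup_le_of_le (h := ?_)) (EReal.coe_lt_top M)
        filter_upwards [self_mem_nhdsWithin] with z hz
        exact EReal.coe_le_coe_iff.2 (abs_le.1 (hM z hz).1).2
      · refine lt_of_lt_of_le (EReal.bot_lt_coe (-M)) (le_liminf_of_le (h := ?_))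
        filter_upwards [self_mem_nhdsWithin] with z hz
        exact EReal.coe_le_coe_iff.2 (abs_le.1 (hM z hz).2).1
      · obtain ⟨c, hc1, hc2⟩ := hlim y hy
        have hne : (𝓝[Ω] y).NeBot := mem_closure_iff_nhdsWithin_neBot.1 (frontier_subset_closure hy.1)
        have e1 : Tendsto (fun x => (h x : EReal)) (𝓝[Ω] y) (𝓝 (c : EReal)) :=
          (continuous_coe_real_ereal.tendsto c).comp hc1
        have e2 : Tendsto (fun x => (k x : EReal)) (𝓝[Ω] y) (𝓝 (c : EReal)) :=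
          (continuous_coe_real_ereal.tendsto c).comp hc2
        rw [e1.limsup_eq, e2.liminf_eq]
    rintro h k hh hk ⟨M, hM⟩ hlim x hx
    refine le_antisymm (hle h k hh hk ⟨M, hM⟩ hlim x hx) (hle k h hk hh ⟨M, fun x hx => (hM x hx).symm⟩ ?_ x hx)
    intro y hy
    obtain ⟨c, h1, h2⟩ := hlim y hy
    exact ⟨c, h2, h1⟩
  · intro f g
    refine ⟨fun hfg => perron_le hC hfg, fun hfg hf hg x hx => le_antisymm ?_ ?_⟩
    · rw [← hf x hx]
      exact perron_le hC (fun y hy => (hfg y hy).le) x hx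
    · rw [← hg x hx]
      exact perron_le hC (fun y hy => (hfg y hy).ge) x hx

end Pool.Agent.Results.MP_fb6cbc_an.PolarSets
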